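import Pool.Agent.WR4.Stmts

/-! # Squad WR4, row SLS: short and long paths. -/

set_option autoImplicit false

namespace Pool.Agent.WR4.H42

open Pool.Agent.WIR Pool.Agent.WR2 Pool.Agent.WR3 Pool.Agent.WR4

theorem sls (hR : RmuStmt) (hP : PreStmt) : SlsStmt := by
  classical
  intro a ha t x
  obtain ⟨r1, r2, -, -⟩ := hR a ha
  obtain ⟨p1, -, p3, -⟩ := hP
  have hod : ∀ τ c, od τ c < τ + 1 := by
    intro τ c
    unfold od
    exact Nat.lt_succ_of_le ((Finset.card_filter_le _ _).trans (Finset.card_range τ).le)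
  -- split of the multiplicity
  have h1 : ∀ c, mu a x c =
      (((Finset.range t).filter
        (fun τ => T^[τ] c = a ∧ (2 : ℝ) ^ τ ≤ x * 3 ^ od τ c)).card : ℝ) +
      (Set.ncard {τ : ℕ | t ≤ τ ∧ T^[τ] c = a ∧ (2 : ℝ) ^ τ ≤ x * 3 ^ od τ c} : ℝ) := by
    intro c
    have hfin := r1 x c
    have hs : {τ : ℕ | T^[τ] c = a ∧ (2 : ℝ) ^ τ ≤ x * 3 ^ od τ c} =
        (((Finset.range t).filter
          (fun τ => T^[τ] c = a ∧ (2 : ℝ) ^ τ ≤ x * 3 ^ od τ c) : Finset ℕ) : Set ℕ) ∪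
        {τ : ℕ | t ≤ τ ∧ T^[τ] c = a ∧ (2 : ℝ) ^ τ ≤ x * 3 ^ od τ c} := by
      ext τ
      simp only [Set.mem_ofPred_eq, Set.mem_union, Finset.coe_filter, Finset.mem_range]
      constructor
      · intro h
        rcases Nat.lt_or_ge τ t with h' | h'
        · exact Or.inl ⟨h', h⟩
        · exact Or.inr ⟨h', h⟩
      · rintro (h | h)
        · exact h.2
        · exact h.2
    have hdis : Disjoint (((Finset.range t).filter
          (fun τ => T^[τ] c = a ∧ (2 : ℝ) ^ τ ≤ x * 3 ^ od τ c) : Finset ℕ) : Set ℕ)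
        {τ : ℕ | t ≤ τ ∧ T^[τ] c = a ∧ (2 : ℝ) ^ τ ≤ x * 3 ^ od τ c} := by
      rw [Set.disjoint_left]
      intro τ h h'
      simp only [Finset.coe_filter, Finset.mem_range, Set.mem_ofPred_eq] at h h'
      omega
    unfold mu
    rw [hs, Set.ncard_union_eq hdis (Finset.finite_toSet _)
      (hfin.subset fun τ h => h.2), Set.ncard_coe_finset, Nat.cast_add]
  -- the fibres
  have h2 : ∀ τ, (((Finset.Icc 1 ⌊(a : ℝ) * x⌋₊).filter
      (fun c => T^[τ] c = a ∧ (2 : ℝ) ^ τ ≤ x * 3 ^ od τ c)).card : ℝ) =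
      ∑ l ∈ Finset.range (τ + 1), if (2 : ℝ) ^ τ ≤ x * 3 ^ l then (uT τ l a : ℝ) else 0 := by
    intro τ
    rw [Finset.card_eq_sum_card_fiberwise (f := od τ) (t := Finset.range (τ + 1))
      (fun c _ => by
        rw [Finset.coe_range, Set.mem_Iio]
        exact hod τ c), Nat.cast_sum]
    refine Finset.sum_congr rfl fun l _ => ?_
    split_ifs with hl
    · rw [p3]
      congr 2
      ext c
      rw [p1, Finset.mem_filter, Finset.mem_filter, Finset.mem_Icc]
      constructor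
      · rintro ⟨⟨⟨h3, _⟩, h4, _⟩, h5⟩
        exact ⟨h3, h4, h5⟩
      · rintro ⟨h3, h4, h5⟩
        have h6 : (2 : ℝ) ^ τ ≤ x * 3 ^ od τ c := by rw [h5]; exact hl
        exact ⟨⟨⟨h3, Nat.le_floor (r2 x c τ h4 h6).2⟩, h4, h6⟩, h5⟩
    · rw [Nat.cast_eq_zero, Finset.card_eq_zero, Finset.filter_eq_empty_iff]
      intro c hc h5
      rw [Finset.mem_filter] at hc
      apply hl
      rw [← h5]
      exact hc.2.2
  unfold FR SH LR
  rw [Finset.sum_congr rfl fun c _ => h1 c, Finset.sum_add_distrib]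
  congr 1
  rw [← Finset.sum_congr rfl fun τ _ => h2 τ]
  simp only [Finset.card_filter, Nat.cast_sum]
  exact Finset.sum_comm

end Pool.Agent.WR4.H42
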